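import Pool.Agent.helper42.NS.Spec

/-!
# Row nos:GEN
-/

set_option autoImplicit false

namespace Pool.Agent.helper42.NS

open Polynomial Matrix

theorem GEN_kil (h1 : KIL_stmt) (P : Pt) {m : ℕ} (H : Matrix (Fin m) (Fin m) ℤ) (k r : ℕ)
    (hr : crk P H ≤ r) :
    Set.ncard {B : Fin k → Fin m → Bool | Bad P H B} * 2 ^ k ≤ (2 ^ r - 1) * 2 ^ (m * k) := by
  have := P.isMaximal
  letI := Ideal.Quotient.field P.asIdeal
  have h2 := h1 (KP P) m (EigK (KP P) (lamP P) H) k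
  have h3 : Module.finrank (KP P) (EigK (KP P) (lamP P) H) ≤ r := hr
  refine h2.trans (Nat.mul_le_mul_right _ (Nat.sub_le_sub_right ?_ 1))
  exact Nat.pow_le_pow_right (by norm_num) h3

theorem GEN_dot {K : Type*} [CommRing K] {m : ℕ} (b : Fin m → Bool) (u : Fin m → K) :
    ∑ j, ((ind b j : ℤ) : K) * u j = dotb b u := by
  unfold dotb ind
  refine Finset.sum_congr rfl ?_
  intro j _
  by_cases h : b j
  · simp [h]
  · simp [h]

theorem GEN (h1 : KIL_stmt) (h2 : PBH_stmt) (h3 : PTS_stmt) (h4 : EXR_stmt) : GEN_stmt := by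
  classical
  intro m L H hL hGr hmL hGood
  have hsym : ∀ i j, H i j = H j i := hGr.2.2
  obtain ⟨B0, hB0⟩ := h4 m L H hsym hmL (fun P hP => (hGood P).1 hP)
  have hPTS := h3 m (3 * L + 3) L H B0 hGr hmL hB0
  have hfin : {P : Pt | Bad P H B0}.Finite := by
    by_contra hinf
    obtain ⟨s, hs1, hs2⟩ := Set.Infinite.exists_subset_card_eq hinf (2 ^ (4 * L + 1) + 1)
    have h5 := hPTS s (fun P hP => hs1 hP)
    omega
  obtain ⟨S, hS⟩ := hfin.exists_finset
  have hSc : S.card ≤ 2 ^ (4 * L + 1) := hPTS S (fun P hP => (hS P).1 hP)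
  have hone : ∀ P : Pt, Set.ncard {B : Fin (9 * L + 5) → Fin m → Bool | Bad P H B} *
      2 ^ (9 * L + 5) ≤ (2 ^ (5 * L + 3) - 1) * 2 ^ (m * (9 * L + 5)) :=
    fun P => GEN_kil h1 P H (9 * L + 5) (5 * L + 3) (hGood P).2
  have hcard : ∀ B1 : Set (Fin (9 * L + 5) → Fin m → Bool), B1.Finite := fun B1 => Set.toFinite _
  have hun : Set.ncard (⋃ P ∈ S, {B : Fin (9 * L + 5) → Fin m → Bool | Bad P H B}) ≤
      ∑ P ∈ S, Set.ncard {B : Fin (9 * L + 5) → Fin m → Bool | Bad P H B} := by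
    clear hS hSc
    induction S using Finset.induction_on with
    | empty => simp
    | insert a s ha ih =>
      rw [Finset.sum_insert ha, Finset.set_biUnion_insert]
      exact (Set.ncard_union_le _ _).trans (Nat.add_le_add_left ih _)
  have hlt : Set.ncard (⋃ P ∈ S, {B : Fin (9 * L + 5) → Fin m → Bool | Bad P H B}) <
      Nat.card (Fin (9 * L + 5) → Fin m → Bool) := by
    have hc : Nat.card (Fin (9 * L + 5) → Fin m → Bool) = 2 ^ (m * (9 * L + 5)) := by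
      rw [Nat.card_eq_fintype_card, Fintype.card_fun, Fintype.card_fun, Fintype.card_bool,
        Fintype.card_fin, Fintype.card_fin, ← pow_mul]
    rw [hc]
    have h5 : Set.ncard (⋃ P ∈ S, {B : Fin (9 * L + 5) → Fin m → Bool | Bad P H B}) *
        2 ^ (9 * L + 5) ≤ 2 ^ (4 * L + 1) * ((2 ^ (5 * L + 3) - 1) * 2 ^ (m * (9 * L + 5))) := by
      calc Set.ncard (⋃ P ∈ S, {B : Fin (9 * L + 5) → Fin m → Bool | Bad P H B}) *
            2 ^ (9 * L + 5)
          ≤ (∑ P ∈ S, Set.ncard {B : Fin (9 * L + 5) → Fin m → Bool | Bad P H B}) *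
            2 ^ (9 * L + 5) := Nat.mul_le_mul_right _ hun
        _ = ∑ P ∈ S, Set.ncard {B : Fin (9 * L + 5) → Fin m → Bool | Bad P H B} *
            2 ^ (9 * L + 5) := Finset.sum_mul _ _ _
        _ ≤ ∑ _P ∈ S, (2 ^ (5 * L + 3) - 1) * 2 ^ (m * (9 * L + 5)) :=
            Finset.sum_le_sum fun P _ => hone P
        _ = S.card * ((2 ^ (5 * L + 3) - 1) * 2 ^ (m * (9 * L + 5))) := by
            rw [Finset.sum_const, smul_eq_mul]
        _ ≤ _ := Nat.mul_le_mul_right _ hSc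
    have h6 : 2 ^ (4 * L + 1) * ((2 ^ (5 * L + 3) - 1) * 2 ^ (m * (9 * L + 5))) <
        2 ^ (m * (9 * L + 5)) * 2 ^ (9 * L + 5) := by
      have h7 : 2 ^ (5 * L + 3) - 1 < 2 ^ (5 * L + 3) := Nat.sub_lt (by positivity) (by norm_num)
      have h8 : (2 : ℕ) ^ (9 * L + 5) = 2 ^ (4 * L + 1) * 2 ^ (5 * L + 3) * 2 := by
        rw [← pow_add, ← pow_succ]
        congr 1
        omega
      have h9 : 0 < 2 ^ (m * (9 * L + 5)) := by positivity
      have h10 : 0 < 2 ^ (4 * L + 1) := by positivity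
      calc 2 ^ (4 * L + 1) * ((2 ^ (5 * L + 3) - 1) * 2 ^ (m * (9 * L + 5)))
          < 2 ^ (4 * L + 1) * (2 ^ (5 * L + 3) * 2 ^ (m * (9 * L + 5))) :=
            Nat.mul_lt_mul_of_pos_left (Nat.mul_lt_mul_of_pos_right h7 h9) h10
        _ ≤ 2 ^ (4 * L + 1) * (2 ^ (5 * L + 3) * 2 ^ (m * (9 * L + 5))) * 2 :=
            Nat.le_mul_of_pos_right _ (by norm_num)
        _ = 2 ^ (m * (9 * L + 5)) * 2 ^ (9 * L + 5) := by rw [h8]; ring
    exact Nat.lt_of_mul_lt_mul_right (h5.trans_lt h6)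
  obtain ⟨B1, hB1⟩ : ∃ B1 : Fin (9 * L + 5) → Fin m → Bool,
      B1 ∉ ⋃ P ∈ S, {B : Fin (9 * L + 5) → Fin m → Bool | Bad P H B} := by
    by_contra hcon
    push Not at hcon
    have h5 : (⋃ P ∈ S, {B : Fin (9 * L + 5) → Fin m → Bool | Bad P H B}) = Set.univ :=
      Set.eq_univ_of_forall hcon
    rw [h5, Set.ncard_univ] at hlt
    exact lt_irrefl _ hlt
  have hsz : 12 * L + 8 = (3 * L + 3) + (9 * L + 5) := by ring
  refine ⟨fun i => Fin.append B0 B1 (Fin.cast hsz i), ?_⟩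
  by_contra hK
  obtain ⟨P, u, hu0, huE, huB⟩ := h2 m H _ hsym hK
  have horth : ∀ i : Fin (12 * L + 8), dotb (Fin.append B0 B1 (Fin.cast hsz i)) u = 0 := by
    intro i
    rw [← GEN_dot]
    exact huB _ ⟨i, rfl⟩
  have hb0 : Bad P H B0 := by
    refine ⟨u, huE, hu0, ?_⟩
    intro i
    have h5 := horth (Fin.cast hsz.symm (Fin.castAdd (9 * L + 5) i))
    rw [Fin.cast_cast, Fin.cast_refl, id, Fin.append_left] at h5
    exact h5
  have hb1 : Bad P H B1 := by
    refine ⟨u, huE, hu0, ?_⟩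
    intro i
    have h5 := horth (Fin.cast hsz.symm (Fin.natAdd (3 * L + 3) i))
    rw [Fin.cast_cast, Fin.cast_refl, id, Fin.append_right] at h5
    exact h5
  apply hB1
  exact Set.mem_iUnion₂.2 ⟨P, (hS P).2 hb0, hb1⟩

end Pool.Agent.helper42.NS
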